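import Pool.Agent.Helper80.HG.St

/-!
Project HG (MP_1bacb5_al), module XP: exponential gaps are impossible.
-/

set_option autoImplicit false

namespace Pool.Agent.Helper52.HG

open Pool.Agent.Helper80.HG Filter Topology Asymptotics

open scoped commutatorElement

private lemma expi_mono (m : ℕ) : StrictMono (Real.exp^[m]) := Real.exp_strictMono.iterate m

private lemma expi_top (m : ℕ) : Tendsto (Real.exp^[m]) atTop atTop := by
  induction m with
  | zero => exact tendsto_id
  | succ m ih =>
    rw [Function.iterate_succ']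
    exact Real.tendsto_exp_atTop.comp ih

private lemma logi_top (m : ℕ) : Tendsto (Real.log^[m]) atTop atTop := by
  induction m with
  | zero => exact tendsto_id
  | succ m ih =>
    rw [Function.iterate_succ']
    exact Real.tendsto_log_atTop.comp ih

private lemma expi_logi (m : ℕ) : ∀ᶠ y in atTop, Real.exp^[m] (Real.log^[m] y) = y := by
  induction m with
  | zero => exact Eventually.of_forall fun y => rfl
  | succ m ih =>
    filter_upwards [ih, (logi_top m).eventually_gt_atTop 0] with y h1 h2
    rw [Function.iterate_succ_apply' Real.log, Function.iterate_succ_apply, Real.exp_log h2, h1]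

private lemma expi_add_one (q : ℕ) (x : ℝ) (hx : 0 ≤ x) :
    0 ≤ Real.exp^[q] x ∧ Real.exp^[q] x + 1 ≤ Real.exp^[q] (x + 1) := by
  induction q with
  | zero => exact ⟨hx, le_rfl⟩
  | succ q ih =>
    rw [Function.iterate_succ_apply', Function.iterate_succ_apply']
    refine ⟨(Real.exp_pos _).le, ?_⟩
    have h1 : Real.exp (Real.exp^[q] x + 1) ≤ Real.exp (Real.exp^[q] (x + 1)) := Real.exp_le_exp.2 ih.2
    have h2 : Real.exp (Real.exp^[q] x + 1) = Real.exp (Real.exp^[q] x) * Real.exp 1 := Real.exp_add _ _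
    have h3 : (1 : ℝ) ≤ Real.exp (Real.exp^[q] x) := Real.one_le_exp ih.1
    have h4 : (2 : ℝ) ≤ Real.exp 1 := by linarith [Real.add_one_le_exp (1 : ℝ)]
    nlinarith

private lemma part1 (H : Set (ℝ → ℝ)) (hH : Bas H) (f : ℝ → ℝ) (hf : f ∈ H) (ht : Tendsto f atTop atTop) :
    ¬ ∀ᶠ z in atTop, Real.exp (f z) ≤ f (z + 1) := by
  intro hc
  obtain ⟨m, n, hmn⟩ := hH.lev f hf ht
  obtain ⟨M, hM⟩ := hH.mono f hf ht
  have e1 : ∀ᶠ x in atTop, |Real.log^[m] (f (Real.exp^[n] x)) - x| < 1 := by
    have h := hmn.eventually (Metric.ball_mem_nhds (0 : ℝ) one_pos)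
    filter_upwards [h] with x hx
    rw [Real.dist_eq, sub_zero] at hx
    exact hx
  have e2 : ∀ᶠ x in atTop, Real.exp^[m] (Real.log^[m] (f (Real.exp^[n] x))) = f (Real.exp^[n] x) :=
    (ht.comp (expi_top n)).eventually (expi_logi m)
  have hsh : Tendsto (fun x : ℝ => x + 1) atTop atTop := tendsto_atTop_add_const_right _ _ tendsto_id
  obtain ⟨x, h1, h2, h3, h4, h5, h6, h7⟩ := ((e1.and (e2.and ((hsh.eventually e1).and ((hsh.eventually e2).and
    (((expi_top n).eventually hc).and (((expi_top n).eventually_ge_atTop M).and (eventually_gt_atTop 4))))))).exists)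
  -- the lower bound
  have a1 : Real.exp^[m] (x - 1) ≤ f (Real.exp^[n] x) := by
    rw [← h2]
    refine (expi_mono m).monotone ?_
    have := (abs_lt.1 h1).1
    linarith
  have a2 : f (Real.exp^[n] (x + 1)) ≤ Real.exp^[m] (x + 2) := by
    rw [← h4]
    refine (expi_mono m).monotone ?_
    have := (abs_lt.1 h3).2
    linarith
  have a3 : f (Real.exp^[n] x + 1) ≤ f (Real.exp^[n] (x + 1)) := by
    have h8 := (expi_add_one n x (by linarith)).2
    refine hM.monotoneOn ?_ ?_ h8
    · show M ≤ _
      linarith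
    · show M ≤ _
      linarith
  have a4 : Real.exp (Real.exp^[m] (x - 1)) ≤ Real.exp^[m] (x + 2) :=
    (Real.exp_le_exp.2 a1).trans (h5.trans (a3.trans a2))
  rw [← Function.iterate_succ_apply' Real.exp, Function.iterate_succ_apply, (expi_mono m).le_iff_le] at a4
  have a5 := Real.quadratic_le_exp_of_nonneg (x := x - 1) (by linarith)
  nlinarith

theorem hXP : StXP := by
  refine ⟨part1, fun H hH Γ _ θ hSB u L0 hL0 Ln hLn t0 tn hlim K => ?_⟩
  have hlog : (fun x => Real.log (L0 x)) ∈ H := hH.comp Real.log hH.log L0 hL0 t0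
  rcases le_or_gt K 0 with hK | hK
  · refine tendsto_atTop_mono' _ ?_ tn
    filter_upwards [t0.eventually_ge_atTop 1] with x hx
    have h1 : 0 ≤ Real.log (L0 x) := Real.log_nonneg hx
    nlinarith
  · have hF : (fun x => Ln x - K * Real.log (L0 x)) ∈ H := hH.sub Ln hLn _ (hH.smul K _ hlog)
    by_contra hcon
    have hC : ∃ C : ℝ, ∀ᶠ x in atTop, Ln x - K * Real.log (L0 x) ≤ C := by
      rcases hH.lim _ hF with ⟨c, hc⟩ | h | h
      · refine ⟨c + 1, ?_⟩
        have h1 := hc.eventually (Metric.ball_mem_nhds c one_pos)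
        filter_upwards [h1] with x hx
        rw [Real.dist_eq] at hx
        have := (abs_lt.1 hx).2
        linarith
      · exact absurd h hcon
      · exact ⟨0, h.eventually_le_atBot 0⟩
    obtain ⟨C, hC⟩ := hC
    -- one step
    have step : ∀ᶠ z in atTop, Real.exp ((L0 z - C - 1) / K) ≤ L0 (θ u z) := by
      have h1 := hlim.eventually (Metric.ball_mem_nhds (0 : ℝ) one_pos)
      filter_upwards [h1, (hSB.top u).eventually hC, (hSB.top u).eventually (t0.eventually_gt_atTop 0)] with z h1 h2 h3
      rw [Real.dist_eq, sub_zero] at h1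
      have h4 := (abs_lt.1 h1).1
      rw [← Real.le_log_iff_exp_le h3, div_le_iff₀ hK]
      linarith
    -- growth
    have grow : ∀ᶠ s in atTop, Real.exp s ≤ Real.exp ((Real.exp ((s - C - 1) / K) - C - 1) / K) := by
      have h1 : Tendsto (fun s : ℝ => (s - C - 1) / K) atTop atTop := by
        refine Tendsto.atTop_div_const hK ?_
        have h2 : Tendsto (fun s : ℝ => s + (-C - 1)) atTop atTop := tendsto_atTop_add_const_right _ _ tendsto_id
        refine h2.congr fun s => ?_
        ring
      filter_upwards [h1.eventually_ge_atTop (2 * K ^ 2 + 2 * |K * (C + 1) + C + 1| + 1), h1.eventually_ge_atTop 1]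
        with s h2 h3
      refine Real.exp_le_exp.2 ?_
      rw [le_div_iff₀ hK]
      set t := (s - C - 1) / K with ht
      have h4 : s = K * t + C + 1 := by
        rw [ht]
        field_simp
        ring
      have h5 := Real.quadratic_le_exp_of_nonneg (x := t) (by linarith)
      have h6 := le_abs_self (K * (C + 1) + C + 1)
      have h7 := abs_nonneg (K * (C + 1) + C + 1)
      rw [h4]
      have h8 : 0 ≤ K ^ 2 := sq_nonneg K
      nlinarith [mul_le_mul_of_nonneg_right h2 (by linarith : (0 : ℝ) ≤ t)]
    have two : ∀ᶠ z in atTop, Real.exp (L0 z) ≤ L0 (θ (u * u) z) := by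
      filter_upwards [step, (hSB.top u).eventually step, hSB.mul u u, t0.eventually grow] with z h1 h2 h3 h4
      rw [h3]
      refine h4.trans ((Real.exp_le_exp.2 ?_).trans h2)
      rw [div_le_div_iff_of_pos_right hK]
      linarith
    obtain ⟨M, hM⟩ := hH.mono L0 hL0 t0
    refine part1 H hH L0 hL0 t0 ?_
    have hs := (hSB.sml (u * u)).eventually (Metric.ball_mem_nhds (0 : ℝ) one_pos)
    filter_upwards [two, hs, (hSB.top (u * u)).eventually_ge_atTop M, eventually_ge_atTop M] with z h1 h2 h3 h4
    rw [Real.dist_eq, sub_zero] at h2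
    have h5 : θ (u * u) z ≤ z + 1 := by
      have := (abs_lt.1 h2).2
      unfold dsp at this
      linarith
    refine h1.trans (hM.monotoneOn h3 ?_ h5)
    show M ≤ _
    linarith

end Pool.Agent.Helper52.HG
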